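import Pool.Agent.Helper33.QB.Defs
import Pool.Agent.Helper84.QB.Acts
import Pool.Agent.Helper45.QB.Ring1
import Pool.Agent.Helper46.QB.Ring2
import Pool.Agent.Helper87.QB.Rank
import Pool.Agent.Helper82.QB.MS
import Pool.Agent.Helper23.QB.Step
import Pool.Agent.Helper5.QB.Fresh

/-!
# Project QB, module E: the ping-pong lemma
-/

set_option autoImplicit false

namespace Pool.Agent.Helper33.QB

open Set

universe v

variable {Ω : Type} {I : Type v}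

/-- A state of the back-and-forth construction: the current domain, the current map and the
current part of the space which is under control. -/
structure PpSt (Ω : Type) where
  D : Set Ω
  f : Ω → Ω
  K : Set Ω

/-- The graph of a state. -/
def PpSt.gr (G : I → Ω → Ω → Prop) (i : I) (s : PpSt Ω) : I → Ω → Ω → Prop :=
  addE G i s.D s.f

/-- Good states. -/
structure PpGood (R : Set (Set Ω)) (G : I → Ω → Ω → Prop) (i : I) (A B : Set Ω)
    (s : PpSt Ω) : Prop where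
  DA : s.D ⊆ A
  DR : s.D ∈ R
  inj : InjOn s.f s.D
  iso : ∀ O, O ⊆ s.D → (O ∈ R ↔ s.f '' O ∈ tr R B)
  KR : s.K ∈ R
  DK : s.D ⊆ s.K
  DK' : s.f '' s.D ⊆ s.K
  pf : PF (s.gr G i)
  fr : Free (s.gr G i)
  pr : Proper R (s.gr G i)

/-- Extension of states. -/
structure PpLe (G : I → Ω → Ω → Prop) (i : I) (s s' : PpSt Ω) : Prop where
  D : s.D ⊆ s'.D
  f : ∀ x ∈ s.D, s'.f x = s.f x
  K : s.K ⊆ s'.K
  ctl : ∀ x ∈ s.K, ∀ y ∈ s.K, ∀ g, Acts (s'.gr G i) g x y → Acts (s.gr G i) g x y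

theorem PpLe.refl (G : I → Ω → Ω → Prop) (i : I) (s : PpSt Ω) : PpLe G i s s :=
  ⟨Subset.rfl, fun _ _ => rfl, Subset.rfl, fun _ _ _ _ _ h => h⟩

theorem PpLe.trans {G : I → Ω → Ω → Prop} {i : I} {s s' s'' : PpSt Ω} (h : PpLe G i s s')
    (h' : PpLe G i s' s'') : PpLe G i s s'' :=
  ⟨h.D.trans h'.D, fun x hx => (h'.f x (h.D hx)).trans (h.f x hx), h.K.trans h'.K,
    fun x hx y hy g hg => h.ctl x hx y hy g (h'.ctl x (h.K hx) y (h.K hy) g hg)⟩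

theorem PpLe.img {G : I → Ω → Ω → Prop} {i : I} {s s' : PpSt Ω} (h : PpLe G i s s') :
    s.f '' s.D ⊆ s'.f '' s'.D := by
  rintro _ ⟨x, hx, rfl⟩
  exact ⟨x, h.D hx, h.f x hx⟩

theorem PpLe.mono {G : I → Ω → Ω → Prop} {i : I} {s s' : PpSt Ω} (h : PpLe G i s s') :
    ∀ l x y, s.gr G i l x y → s'.gr G i l x y := by
  intro l x y hxy
  rcases hxy with hxy | ⟨h1, h2, h3⟩
  · exact Or.inl hxy
  · exact Or.inr ⟨h1, h.D h2, by rw [h3, h.f x h2]⟩

/-- `ClSys` for the graph of a state. -/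
theorem pp_clsys {Y : Set Ω} {R : Set (Set Ω)} {r : Ω → Ordinal.{0}} (hY : GR Y R r)
    {G : I → Ω → Ω → Prop} (hC : ClSys Y R G) {i : I} {A B : Set Ω} (hAY : A ⊆ Y)
    (hB : Cl Y R B) {rB : Ω → Ordinal.{0}} (hrB : GR B (tr R B) rB)
    {s : PpSt Ω} (hs : PpGood R G i A B s) : ClSys Y R (s.gr G i) := by
  have hDB : s.f '' s.D ∈ tr R B := (hs.iso s.D Subset.rfl).1 hs.DR
  have hDB' : s.f '' s.D ⊆ B := hrB.sub _ hDB
  have hDcl : Cl Y R (s.f '' s.D) := Cl.trans hB (Cl.of_mem hrB hDB) hY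
  refine ⟨?_, ?_, ?_⟩
  · intro l x y hxy
    rcases hxy with hxy | ⟨_, h2, h3⟩
    · exact hC.1 l x y hxy
    · exact ⟨hAY (hs.DA h2), h3 ▸ hB.1 (hDB' ⟨x, h2, rfl⟩)⟩
  · intro l C hCl
    have h1 := hC.2.1 l C hCl
    have h2 : Cl Y R {y | ∃ x ∈ C, l = i ∧ x ∈ s.D ∧ y = s.f x} := by
      refine ⟨?_, ?_⟩
      · rintro y ⟨x, _, _, h3, h4⟩
        exact h4 ▸ hB.1 (hDB' ⟨x, h3, rfl⟩)
      · intro y hy hn
        by_cases hyD : y ∈ s.f '' s.D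
        · obtain ⟨x, hx, rfl⟩ := hyD
          by_cases hli : l = i
          · have hxC : x ∉ C := fun hxC => hn ⟨x, hxC, hli, hx, rfl⟩
            obtain ⟨K1, hK1, hxK1, hK1C⟩ := hCl.2 x (hAY (hs.DA hx)) hxC
            have hO : K1 ∩ s.D ∈ R := hY.inter hK1 hs.DR
            obtain ⟨K2, hK2, hK2e⟩ := (hs.iso (K1 ∩ s.D) inter_subset_right).1 hO
            refine ⟨K2, hK2, ?_, ?_⟩
            · have : s.f x ∈ K2 ∩ B := hK2e ▸ ⟨x, ⟨hxK1, hx⟩, rfl⟩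
              exact this.1
            · rw [eq_empty_iff_forall_notMem]
              rintro z ⟨hz, x', hx'C, _, hx'D, rfl⟩
              have hz' : s.f x' ∈ K2 ∩ B := ⟨hz, hDB' ⟨x', hx'D, rfl⟩⟩
              rw [← hK2e] at hz'
              obtain ⟨x'', hx'', he⟩ := hz'
              have := hs.inj hx''.2 hx'D he
              rw [this] at hx''
              have : x' ∈ K1 ∩ C := ⟨hx''.1, hx'C⟩
              rw [hK1C] at this
              exact this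
          · obtain ⟨K1, hK1, hxK1⟩ := hY.cov _ hy
            refine ⟨K1, hK1, hxK1, ?_⟩
            rw [eq_empty_iff_forall_notMem]
            rintro z ⟨_, x', _, h3, _⟩
            exact hli h3
        · obtain ⟨K1, hK1, hyK1, hK1D⟩ := hDcl.2 y hy hyD
          refine ⟨K1, hK1, hyK1, ?_⟩
          rw [eq_empty_iff_forall_notMem]
          rintro z ⟨hz, x', _, _, hx'D, rfl⟩
          have : s.f x' ∈ K1 ∩ s.f '' s.D := ⟨hz, x', hx'D, rfl⟩
          rw [hK1D] at this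
          exact this
    have h3 := Cl.union hY h1 h2
    have h4 : {y | ∃ x ∈ C, s.gr G i l x y} =
        {y | ∃ x ∈ C, G l x y} ∪ {y | ∃ x ∈ C, l = i ∧ x ∈ s.D ∧ y = s.f x} := by
      ext y
      constructor
      · rintro ⟨x, hx, h | h⟩
        · exact Or.inl ⟨x, hx, h⟩
        · exact Or.inr ⟨x, hx, h⟩
      · rintro (⟨x, hx, h⟩ | ⟨x, hx, h⟩)
        · exact ⟨x, hx, Or.inl h⟩
        · exact ⟨x, hx, Or.inr h⟩
    rw [h4]
    exact h3
  · intro l C hCl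
    have h1 := hC.2.2 l C hCl
    have hDc : Cl Y R s.D := Cl.of_mem hY hs.DR
    have h2 : Cl Y R {x | ∃ y ∈ C, l = i ∧ x ∈ s.D ∧ y = s.f x} := by
      refine ⟨?_, ?_⟩
      · rintro x ⟨y, _, _, h3, _⟩
        exact hAY (hs.DA h3)
      · intro x hx hn
        by_cases hxD : x ∈ s.D
        · by_cases hli : l = i
          · have hfx : s.f x ∈ s.f '' s.D := ⟨x, hxD, rfl⟩
            have hyC : s.f x ∉ C := fun hyC => hn ⟨_, hyC, hli, hxD, rfl⟩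
            obtain ⟨K1, hK1, hxK1, hK1C⟩ := hCl.2 _ (hB.1 (hDB' hfx)) hyC
            obtain ⟨K2, hK2, hK2e⟩ := hDB
            have himg : s.f '' {x' | x' ∈ s.D ∧ s.f x' ∈ K1} = (K1 ∩ K2) ∩ B := by
              ext z
              constructor
              · rintro ⟨x', ⟨hx', hx''⟩, rfl⟩
                have : s.f x' ∈ K2 ∩ B := hK2e ▸ ⟨x', hx', rfl⟩
                exact ⟨⟨hx'', this.1⟩, this.2⟩
              · rintro ⟨⟨hz1, hz2⟩, hz3⟩
                have : z ∈ s.f '' s.D := hK2e ▸ ⟨hz2, hz3⟩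
                obtain ⟨x', hx', rfl⟩ := this
                exact ⟨x', ⟨hx', hz1⟩, rfl⟩
            have hO : {x' | x' ∈ s.D ∧ s.f x' ∈ K1} ∈ R := by
              rw [hs.iso _ (fun x' hx' => hx'.1), himg]
              exact ⟨_, hY.inter hK1 hK2, rfl⟩
            refine ⟨_, hO, ⟨hxD, hxK1⟩, ?_⟩
            rw [eq_empty_iff_forall_notMem]
            rintro x' ⟨⟨_, hx'2⟩, y, hyC', _, _, rfl⟩
            have : s.f x' ∈ K1 ∩ C := ⟨hx'2, hyC'⟩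
            rw [hK1C] at this
            exact this
          · obtain ⟨K1, hK1, hxK1⟩ := hY.cov _ hx
            refine ⟨K1, hK1, hxK1, ?_⟩
            rw [eq_empty_iff_forall_notMem]
            rintro z ⟨_, x', _, h3, _⟩
            exact hli h3
        · obtain ⟨K1, hK1, hyK1, hK1D⟩ := hDc.2 x hx hxD
          refine ⟨K1, hK1, hyK1, ?_⟩
          rw [eq_empty_iff_forall_notMem]
          rintro z ⟨hz, y, _, _, hzD, _⟩
          have : z ∈ K1 ∩ s.D := ⟨hz, hzD⟩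
          rw [hK1D] at this
          exact this
    have h3 := Cl.union hY h1 h2
    have h4 : {x | ∃ y ∈ C, s.gr G i l x y} =
        {x | ∃ y ∈ C, G l x y} ∪ {x | ∃ y ∈ C, l = i ∧ x ∈ s.D ∧ y = s.f x} := by
      ext y
      constructor
      · rintro ⟨x, hx, h | h⟩
        · exact Or.inl ⟨x, hx, h⟩
        · exact Or.inr ⟨x, hx, h⟩
      · rintro (⟨x, hx, h⟩ | ⟨x, hx, h⟩)
        · exact ⟨x, hx, Or.inl h⟩
        · exact ⟨x, hx, Or.inr h⟩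
    rw [h4]
    exact h3

/-- Adding edges twice. -/
theorem pp_addE_addE (G : I → Ω → Ω → Prop) (i : I)
    (D Z : Set Ω) (f e f' : Ω → Ω) (h1 : ∀ x ∈ D, f' x = f x) (h2 : ∀ x ∈ Z, f' x = e x) :
    addE (addE G i D f) i Z e = addE G i (D ∪ Z) f' := by
  funext l x y
  refine propext ⟨?_, ?_⟩
  · rintro ((h | ⟨h3, h4, h5⟩) | ⟨h3, h4, h5⟩)
    · exact Or.inl h
    · exact Or.inr ⟨h3, Or.inl h4, by rw [h5, h1 x h4]⟩
    · exact Or.inr ⟨h3, Or.inr h4, by rw [h5, h2 x h4]⟩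
  · rintro (h | ⟨h3, h4 | h4, h5⟩)
    · exact Or.inl (Or.inl h)
    · exact Or.inl (Or.inr ⟨h3, h4, by rw [h5, h1 x h4]⟩)
    · exact Or.inr ⟨h3, h4, by rw [h5, h2 x h4]⟩

/-- Two isomorphisms with disjoint domains and disjoint ranges. -/
theorem pp_glue_iso {R RB : Set (Set Ω)} (u1 : ∀ K ∈ R, ∀ K' ∈ R, K ∪ K' ∈ R)
    (i1 : ∀ K ∈ R, ∀ K' ∈ R, K ∩ K' ∈ R) (u2 : ∀ K ∈ RB, ∀ K' ∈ RB, K ∪ K' ∈ RB)
    (i2 : ∀ K ∈ RB, ∀ K' ∈ RB, K ∩ K' ∈ RB) {D Z : Set Ω} {f e f' : Ω → Ω} (hD : D ∈ R)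
    (hZ : Z ∈ R) (injf : InjOn f D) (inje : InjOn e Z) (hdis : e '' Z ∩ f '' D = ∅)
    (isof : ∀ O, O ⊆ D → (O ∈ R ↔ f '' O ∈ RB)) (isoe : ∀ O, O ⊆ Z → (O ∈ R ↔ e '' O ∈ RB))
    (h1 : ∀ x ∈ D, f' x = f x) (h2 : ∀ x ∈ Z, f' x = e x) :
    InjOn f' (D ∪ Z) ∧ ∀ O, O ⊆ D ∪ Z → (O ∈ R ↔ f' '' O ∈ RB) := by
  have hd : ∀ x ∈ D, ∀ y ∈ Z, f x ≠ e y := by
    intro x hx y hy h
    have : e y ∈ e '' Z ∩ f '' D := ⟨⟨y, hy, rfl⟩, ⟨x, hx, h⟩⟩
    rw [hdis] at this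
    exact this
  refine ⟨?_, ?_⟩
  · rintro x (hx | hx) y (hy | hy) hxy
    · rw [h1 x hx, h1 y hy] at hxy
      exact injf hx hy hxy
    · rw [h1 x hx, h2 y hy] at hxy
      exact absurd hxy (hd x hx y hy)
    · rw [h2 x hx, h1 y hy] at hxy
      exact absurd hxy.symm (hd y hy x hx)
    · rw [h2 x hx, h2 y hy] at hxy
      exact inje hx hy hxy
  · intro O hO
    have e1 : f' '' O = f '' (O ∩ D) ∪ e '' (O ∩ Z) := by
      ext y
      constructor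
      · rintro ⟨x, hx, rfl⟩
        rcases hO hx with hx' | hx'
        · exact Or.inl ⟨x, ⟨hx, hx'⟩, (h1 x hx').symm⟩
        · exact Or.inr ⟨x, ⟨hx, hx'⟩, (h2 x hx').symm⟩
      · rintro (⟨x, ⟨hx, hx'⟩, rfl⟩ | ⟨x, ⟨hx, hx'⟩, rfl⟩)
        · exact ⟨x, hx, h1 x hx'⟩
        · exact ⟨x, hx, h2 x hx'⟩
    constructor
    · intro h
      rw [e1]
      exact u2 _ ((isof _ inter_subset_right).1 (i1 _ h _ hD)) _
        ((isoe _ inter_subset_right).1 (i1 _ h _ hZ))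
    · intro h
      have a1 : f '' (O ∩ D) = f' '' O ∩ f '' D := by
        ext y
        constructor
        · rintro ⟨x, ⟨hx, hx'⟩, rfl⟩
          exact ⟨⟨x, hx, h1 x hx'⟩, ⟨x, hx', rfl⟩⟩
        · rintro ⟨⟨x, hx, rfl⟩, ⟨x', hx', he⟩⟩
          rcases hO hx with hx2 | hx2
          · exact ⟨x, ⟨hx, hx2⟩, (h1 x hx2).symm⟩
          · rw [h2 x hx2] at he
            exact absurd he (hd x' hx' x hx2)
      have a2 : e '' (O ∩ Z) = f' '' O ∩ e '' Z := by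
        ext y
        constructor
        · rintro ⟨x, ⟨hx, hx'⟩, rfl⟩
          exact ⟨⟨x, hx, h2 x hx'⟩, ⟨x, hx', rfl⟩⟩
        · rintro ⟨⟨x, hx, rfl⟩, ⟨x', hx', he⟩⟩
          rcases hO hx with hx2 | hx2
          · rw [h1 x hx2] at he
            exact absurd he.symm (hd x hx2 x' hx')
          · exact ⟨x, ⟨hx, hx2⟩, (h2 x hx2).symm⟩
      have b1 : O ∩ D ∈ R := by
        rw [isof _ inter_subset_right, a1]
        exact i2 _ h _ ((isof _ Subset.rfl).1 hD)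
      have b2 : O ∩ Z ∈ R := by
        rw [isoe _ inter_subset_right, a2]
        exact i2 _ h _ ((isoe _ Subset.rfl).1 hZ)
      have b3 : O = (O ∩ D) ∪ (O ∩ Z) := by
        rw [← inter_union_distrib_left, inter_eq_left.2 hO]
      rw [b3]
      exact u1 _ b1 _ b2

/-- The extension of a state by a new piece. -/
theorem pp_ext {Y : Set Ω} {R : Set (Set Ω)} {r : Ω → Ordinal.{0}} (hY : GR Y R r)
    {G : I → Ω → Ω → Prop} {i : I} {A B : Set Ω} {rB : Ω → Ordinal.{0}}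
    (hrB : GR B (tr R B) rB) {s : PpSt Ω} (hs : PpGood R G i A B s) {Z X K2 : Set Ω}
    {e : Ω → Ω} (hZ : Z ∈ R) (hZA : Z ⊆ A) (hZD : Z ∩ s.D = ∅) (he : Iso Z R X (tr R B) e)
    (hXd : X ∩ s.f '' s.D = ∅) (hK2 : K2 ∈ R) (hK : s.K ⊆ K2) (hZK : Z ⊆ K2) (hXK : X ⊆ K2)
    (hpf : PF (addE (s.gr G i) i Z e)) (hfr : Free (addE (s.gr G i) i Z e))
    (hpr : Proper R (addE (s.gr G i) i Z e))
    (hctl : ∀ x ∈ s.K, ∀ y ∈ s.K, ∀ g, Acts (addE (s.gr G i) i Z e) g x y →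
      Acts (s.gr G i) g x y) :
    ∃ s', PpGood R G i A B s' ∧ PpLe G i s s' ∧ s'.D = s.D ∪ Z ∧
      s'.f '' s'.D = s.f '' s.D ∪ X ∧ s'.K = K2 := by
  classical
  set f' : Ω → Ω := fun x => if x ∈ s.D then s.f x else e x with hf'
  have h1 : ∀ x ∈ s.D, f' x = s.f x := fun x hx => if_pos hx
  have h2 : ∀ x ∈ Z, f' x = e x := by
    intro x hx
    have hxD : x ∉ s.D := by
      intro hxD
      have : x ∈ Z ∩ s.D := ⟨hx, hxD⟩
      rw [hZD] at this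
      exact this
    exact if_neg hxD
  have hX : e '' Z = X := he.1.image_eq
  have hgr : (⟨s.D ∪ Z, f', K2⟩ : PpSt Ω).gr G i = addE (s.gr G i) i Z e := by
    unfold PpSt.gr
    exact (pp_addE_addE G i s.D Z s.f e f' h1 h2).symm
  have hdis : e '' Z ∩ s.f '' s.D = ∅ := by rw [hX]; exact hXd
  obtain ⟨g1, g2⟩ := pp_glue_iso (f' := f') hY.un (fun K hK K' hK' => hY.inter hK hK') hrB.un
    (fun K hK K' hK' => hrB.inter hK hK') hs.DR hZ hs.inj he.1.injOn hdis hs.iso he.2 h1 h2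
  have himg : f' '' (s.D ∪ Z) = s.f '' s.D ∪ X := by
    rw [image_union, ← hX]
    congr 1
    · exact image_congr h1
    · exact image_congr h2
  refine ⟨⟨s.D ∪ Z, f', K2⟩, ⟨union_subset hs.DA hZA, hY.un _ hs.DR _ hZ, g1, g2, hK2,
    union_subset (hs.DK.trans hK) hZK, ?_, ?_, ?_, ?_⟩, ⟨subset_union_left, h1, hK, ?_⟩, rfl,
    himg, rfl⟩
  · show f' '' (s.D ∪ Z) ⊆ K2
    rw [himg]
    exact union_subset (hs.DK'.trans hK) hXK
  · rw [hgr]; exact hpf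
  · rw [hgr]; exact hfr
  · rw [hgr]; exact hpr
  · rw [hgr]; exact hctl

/-- The hypotheses of the ping-pong lemma which do not change. -/
structure PpH (α : Ordinal.{0}) (Y : Set Ω) (R : Set (Set Ω)) (r : Ω → Ordinal.{0})
    (G : I → Ω → Ω → Prop) (i : I) (A B : Set Ω) (rB : Ω → Ordinal.{0}) : Prop where
  hα : Ind α
  hY : GR Y R r
  cY : Y.Countable
  hr : ∀ x ∈ Y, r x < α
  hC : ClSys Y R G
  hAY : A ⊆ Y
  hA : ∀ K ∈ R, K ∩ A ∈ R
  hB : Cl Y R B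
  hrB : GR B (tr R B) rB
  hTA : Tall α R A r
  hTB : Tall α R B rB
  hd : ∀ x ∈ A, ∀ y, ¬ G i x y
  hrn : ∀ x ∈ B, ∀ y, ¬ G i y x

/-- A new piece of the domain. -/
theorem PpH.fwd {α : Ordinal.{0}} {Y : Set Ω} {R : Set (Set Ω)} {r : Ω → Ordinal.{0}}
    {G : I → Ω → Ω → Prop} {i : I} {A B : Set Ω} {rB : Ω → Ordinal.{0}}
    (H : PpH α Y R r G i A B rB) {s : PpSt Ω} (hs : PpGood R G i A B s) {ρ : Ordinal.{0}}
    {Z : Set Ω} (hZ : Piece R r ρ Z) (hZA : Z ⊆ A) (hZD : Z ∩ s.D = ∅) :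
    ∃ s', PpGood R G i A B s' ∧ PpLe G i s s' ∧ s'.D = s.D ∪ Z := by
  have hρ : ρ < α := by
    obtain ⟨_, x, hx, hx2, _⟩ := hZ
    rw [← hx2]
    exact H.hr x (H.hAY (hZA hx))
  have hKZ : s.K ∪ Z ∈ R := H.hY.un _ hs.KR _ hZ.1
  obtain ⟨X, hX, hXK, hX1, hX2⟩ := fresh H.hα H.hY H.hr hs.pf
    (pp_clsys H.hY H.hC H.hAY H.hB H.hrB hs) hs.fr hs.pr H.hB H.hrB H.hTB hρ hKZ
  obtain ⟨e, he⟩ := ms_piece H.hY H.hrB H.cY (H.cY.mono H.hB.1) hZ hX
  obtain ⟨KX, hKX, hKXe⟩ := hX.1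
  have hXsub : X ⊆ KX := by rw [hKXe]; exact inter_subset_left
  have hXB : X ⊆ B := by rw [hKXe]; exact inter_subset_right
  have hXk : ∀ x ∈ X, x ∉ s.K ∪ Z := by
    intro x hx hxK
    have : x ∈ X ∩ (s.K ∪ Z) := ⟨hx, hxK⟩
    rw [hXK] at this
    exact this
  have hdom : ∀ x ∈ Z, ∀ y, ¬ s.gr G i i x y := by
    intro x hx y hxy
    rcases hxy with h | ⟨_, h, _⟩
    · exact H.hd x (hZA hx) y h
    · have : x ∈ Z ∩ s.D := ⟨hx, h⟩
      rw [hZD] at this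
      exact this
  have hran : ∀ x ∈ X, ∀ y, ¬ s.gr G i i y x := by
    intro x hx y hxy
    rcases hxy with h | ⟨_, h, h'⟩
    · exact H.hrn x (hXB hx) y h
    · exact hXk x hx (Or.inl (hs.DK' ⟨y, h, h'.symm⟩))
  obtain ⟨q1, q2, q3, q4⟩ := one_step H.hY.un hs.pf hs.fr hs.pr (i := i) hKZ
    (subset_union_right : Z ⊆ s.K ∪ Z) hKX hXsub hX1 hX2 he.1 hdom hran
  have hXd : X ∩ s.f '' s.D = ∅ := by
    rw [eq_empty_iff_forall_notMem]
    rintro x ⟨hx, hx'⟩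
    exact hXk x hx (Or.inl (hs.DK' hx'))
  obtain ⟨s', h1, h2, h3, _, _⟩ := pp_ext H.hY H.hrB hs (K2 := (s.K ∪ Z) ∪ KX) hZ.1 hZA hZD he
    hXd (H.hY.un _ hKZ _ hKX) (subset_union_left.trans subset_union_left)
    (subset_union_right.trans subset_union_left) (hXsub.trans subset_union_right) q1 q2 q3
    (fun x hx y hy g hg => q4 x (Or.inl hx) y (Or.inl hy) g hg)
  exact ⟨s', h1, h2, h3⟩

/-- The ranks of the points of `B`. -/
theorem PpH.rankB {α : Ordinal.{0}} {Y : Set Ω} {R : Set (Set Ω)} {r : Ω → Ordinal.{0}}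
    {G : I → Ω → Ω → Prop} {i : I} {A B : Set Ω} {rB : Ω → Ordinal.{0}}
    (H : PpH α Y R r G i A B rB) : ∀ x ∈ B, rB x < α := by
  intro x hx
  obtain ⟨r', h1, h2, _⟩ := exists_rank H.hY H.hB
  rw [GR.rank_unique H.hrB h1 x hx]
  exact lt_of_le_of_lt (h2 x) (H.hr x (H.hB.1 hx))

/-- `A` is closed. -/
theorem PpH.clA {α : Ordinal.{0}} {Y : Set Ω} {R : Set (Set Ω)} {r : Ω → Ordinal.{0}}
    {G : I → Ω → Ω → Prop} {i : I} {A B : Set Ω} {rB : Ω → Ordinal.{0}}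
    (H : PpH α Y R r G i A B rB) : Cl Y R A := by
  refine ⟨H.hAY, ?_⟩
  intro x hx hxA
  obtain ⟨K, hK, hxK⟩ := H.hY.cov x hx
  refine ⟨K \ (K ∩ A), H.hY.df _ hK _ (H.hA K hK), ⟨hxK, fun h => hxA h.2⟩, ?_⟩
  rw [eq_empty_iff_forall_notMem]
  rintro y ⟨⟨h1, h2⟩, h3⟩
  exact h2 ⟨h1, h3⟩

/-- A new piece of the range. -/
theorem PpH.bwd {α : Ordinal.{0}} {Y : Set Ω} {R : Set (Set Ω)} {r : Ω → Ordinal.{0}}
    {G : I → Ω → Ω → Prop} {i : I} {A B : Set Ω} {rB : Ω → Ordinal.{0}}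
    (H : PpH α Y R r G i A B rB) {s : PpSt Ω} (hs : PpGood R G i A B s) {ρ : Ordinal.{0}}
    {Z : Set Ω} (hZ : Piece (tr R B) rB ρ Z) (hZD : Z ∩ s.f '' s.D = ∅) :
    ∃ s', PpGood R G i A B s' ∧ PpLe G i s s' ∧ s'.f '' s'.D = s.f '' s.D ∪ Z := by
  obtain ⟨KZ, hKZ, hKZe⟩ := hZ.1
  have hZsub : Z ⊆ KZ := by rw [hKZe]; exact inter_subset_left
  have hZB : Z ⊆ B := by rw [hKZe]; exact inter_subset_right
  have hρ : ρ < α := by
    obtain ⟨_, x, hx, hx2, _⟩ := hZ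
    rw [← hx2]
    exact H.rankB x (hZB hx)
  have hKK : s.K ∪ KZ ∈ R := H.hY.un _ hs.KR _ hKZ
  obtain ⟨X, hX, hXK, hX1, hX2⟩ := fresh H.hα H.hY H.hr hs.pf
    (pp_clsys H.hY H.hC H.hAY H.hB H.hrB hs) hs.fr hs.pr H.clA
    (GR.clopen H.hY H.hAY H.hA) H.hTA hρ hKK
  have hXR : X ∈ R ∧ X ⊆ A := (mem_tr_clopen H.hY H.hA).1 hX.1
  have hXp : Piece R r ρ X := ⟨hXR.1, hX.2⟩
  obtain ⟨e, he⟩ := ms_piece H.hY H.hrB H.cY (H.cY.mono H.hB.1) hXp hZ
  have hXk : ∀ x ∈ X, x ∉ s.K ∪ KZ := by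
    intro x hx hxK
    have : x ∈ X ∩ (s.K ∪ KZ) := ⟨hx, hxK⟩
    rw [hXK] at this
    exact this
  have hdom : ∀ x ∈ X, ∀ y, ¬ s.gr G i i x y := by
    intro x hx y hxy
    rcases hxy with h | ⟨_, h, _⟩
    · exact H.hd x (hXR.2 hx) y h
    · exact hXk x hx (Or.inl (hs.DK h))
  have hran : ∀ x ∈ Z, ∀ y, ¬ s.gr G i i y x := by
    intro x hx y hxy
    rcases hxy with h | ⟨_, h, h'⟩
    · exact H.hrn x (hZB hx) y h
    · have : x ∈ Z ∩ s.f '' s.D := ⟨hx, ⟨y, h, h'.symm⟩⟩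
      rw [hZD] at this
      exact this
  obtain ⟨q1, q2, q3, q4⟩ := h23_one_step' H.hY.un hs.pf hs.fr hs.pr (i := i) hKK
    (hZsub.trans subset_union_right) hXR.1 Subset.rfl hX1 hX2 he.1 hdom hran
  have hXd : X ∩ s.D = ∅ := by
    rw [eq_empty_iff_forall_notMem]
    rintro x ⟨hx, hx'⟩
    exact hXk x hx (Or.inl (hs.DK hx'))
  obtain ⟨s', h1, h2, _, h3, _⟩ := pp_ext H.hY H.hrB hs (K2 := (s.K ∪ KZ) ∪ X) hXR.1 hXR.2 hXd
    he hZD (H.hY.un _ hKK _ hXR.1) (subset_union_left.trans subset_union_left)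
    subset_union_right ((hZsub.trans subset_union_right).trans subset_union_left) q1 q2 q3
    (fun x hx y hy g hg => q4 x (Or.inl hx) y (Or.inl hy) g hg)
  exact ⟨s', h1, h2, h3⟩

/-- The domain can be enlarged. -/
theorem PpH.dom {α : Ordinal.{0}} {Y : Set Ω} {R : Set (Set Ω)} {r : Ω → Ordinal.{0}}
    {G : I → Ω → Ω → Prop} {i : I} {A B : Set Ω} {rB : Ω → Ordinal.{0}}
    (H : PpH α Y R r G i A B rB) {s : PpSt Ω} (hs : PpGood R G i A B s) {O : Set Ω}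
    (hO : O ∈ R) (hOA : O ⊆ A) :
    ∃ s', PpGood R G i A B s' ∧ PpLe G i s s' ∧ O ⊆ s'.D := by
  have key : ∀ O' ∈ R, ∀ s : PpSt Ω, PpGood R G i A B s → O' ⊆ A → O' ∩ s.D = ∅ →
      ∃ s', PpGood R G i A B s' ∧ PpLe G i s s' ∧ s'.D = s.D ∪ O' := by
    refine GR.pieces H.hY ?_ ?_ ?_
    · intro s hs _ _
      exact ⟨s, hs, PpLe.refl G i s, (union_empty _).symm⟩
    · intro K1 hK1 K2 hK2 hd Q1 Q2 s hs hsub hdis
      have d1 : K1 ∩ s.D = ∅ := by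
        rw [eq_empty_iff_forall_notMem] at hdis ⊢
        exact fun x hx => hdis x ⟨Or.inl hx.1, hx.2⟩
      have d2 : K2 ∩ s.D = ∅ := by
        rw [eq_empty_iff_forall_notMem] at hdis ⊢
        exact fun x hx => hdis x ⟨Or.inr hx.1, hx.2⟩
      obtain ⟨s1, g1, l1, e1⟩ := Q1 s hs (subset_union_left.trans hsub) d1
      have d3 : K2 ∩ s1.D = ∅ := by
        rw [e1, inter_union_distrib_left, d2, empty_union, inter_comm]
        exact hd
      obtain ⟨s2, g2, l2, e2⟩ := Q2 s1 g1 (subset_union_right.trans hsub) d3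
      exact ⟨s2, g2, l1.trans l2, by rw [e2, e1, union_assoc]⟩
    · intro ρ K hK s hs hsub hdis
      exact H.fwd hs hK hsub hdis
  obtain ⟨s', h1, h2, h3⟩ := key (O \ s.D) (H.hY.df _ hO _ hs.DR) s hs
    (Set.sdiff_subset.trans hOA) (by
      rw [eq_empty_iff_forall_notMem]
      rintro x ⟨⟨_, h⟩, h'⟩
      exact h h')
  refine ⟨s', h1, h2, ?_⟩
  rw [h3]
  intro x hx
  by_cases hxD : x ∈ s.D
  · exact Or.inl hxD
  · exact Or.inr ⟨hx, hxD⟩

/-- The range can be enlarged. -/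
theorem PpH.ran {α : Ordinal.{0}} {Y : Set Ω} {R : Set (Set Ω)} {r : Ω → Ordinal.{0}}
    {G : I → Ω → Ω → Prop} {i : I} {A B : Set Ω} {rB : Ω → Ordinal.{0}}
    (H : PpH α Y R r G i A B rB) {s : PpSt Ω} (hs : PpGood R G i A B s) {O : Set Ω}
    (hO : O ∈ tr R B) :
    ∃ s', PpGood R G i A B s' ∧ PpLe G i s s' ∧ O ⊆ s'.f '' s'.D := by
  have key : ∀ O' ∈ tr R B, ∀ s : PpSt Ω, PpGood R G i A B s → O' ∩ s.f '' s.D = ∅ →
      ∃ s', PpGood R G i A B s' ∧ PpLe G i s s' ∧ s'.f '' s'.D = s.f '' s.D ∪ O' := by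
    refine GR.pieces H.hrB ?_ ?_ ?_
    · intro s hs _
      exact ⟨s, hs, PpLe.refl G i s, (union_empty _).symm⟩
    · intro K1 hK1 K2 hK2 hd Q1 Q2 s hs hdis
      have d1 : K1 ∩ s.f '' s.D = ∅ := by
        rw [eq_empty_iff_forall_notMem] at hdis ⊢
        exact fun x hx => hdis x ⟨Or.inl hx.1, hx.2⟩
      have d2 : K2 ∩ s.f '' s.D = ∅ := by
        rw [eq_empty_iff_forall_notMem] at hdis ⊢
        exact fun x hx => hdis x ⟨Or.inr hx.1, hx.2⟩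
      obtain ⟨s1, g1, l1, e1⟩ := Q1 s hs d1
      have d3 : K2 ∩ s1.f '' s1.D = ∅ := by
        rw [e1, inter_union_distrib_left, d2, empty_union, inter_comm]
        exact hd
      obtain ⟨s2, g2, l2, e2⟩ := Q2 s1 g1 d3
      exact ⟨s2, g2, l1.trans l2, by rw [e2, e1, union_assoc]⟩
    · intro ρ K hK s hs hdis
      exact H.bwd hs hK hdis
  have hDB : s.f '' s.D ∈ tr R B := (hs.iso s.D Subset.rfl).1 hs.DR
  obtain ⟨s', h1, h2, h3⟩ := key (O \ s.f '' s.D) (H.hrB.df _ hO _ hDB) s hs (by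
      rw [eq_empty_iff_forall_notMem]
      rintro x ⟨⟨_, h⟩, h'⟩
      exact h h')
  refine ⟨s', h1, h2, ?_⟩
  rw [h3]
  intro x hx
  by_cases hxD : x ∈ s.f '' s.D
  · exact Or.inl hxD
  · exact Or.inr ⟨hx, hxD⟩

/-- One step of the construction. -/
theorem PpH.step {α : Ordinal.{0}} {Y : Set Ω} {R : Set (Set Ω)} {r : Ω → Ordinal.{0}}
    {G : I → Ω → Ω → Prop} {i : I} {A B : Set Ω} {rB : Ω → Ordinal.{0}}
    (H : PpH α Y R r G i A B rB) {s : PpSt Ω} (hs : PpGood R G i A B s) {C : Set Ω}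
    (hC : C ∈ R) :
    ∃ s', PpGood R G i A B s' ∧ PpLe G i s s' ∧ C ∩ A ⊆ s'.D ∧ C ∩ B ⊆ s'.f '' s'.D ∧
      C ⊆ s'.K := by
  obtain ⟨s1, g1, l1, e1⟩ := H.dom hs (H.hA C hC) inter_subset_right
  obtain ⟨s2, g2, l2, e2⟩ := H.ran g1 (O := C ∩ B) ⟨C, hC, rfl⟩
  refine ⟨⟨s2.D, s2.f, s2.K ∪ C⟩, ⟨g2.DA, g2.DR, g2.inj, g2.iso, H.hY.un _ g2.KR _ hC,
    g2.DK.trans subset_union_left, g2.DK'.trans subset_union_left, g2.pf, g2.fr, g2.pr⟩,
    (l1.trans l2).trans ⟨Subset.rfl, fun _ _ => rfl, subset_union_left,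
      fun _ _ _ _ _ h => h⟩, e1.trans l2.D, e2, subset_union_right⟩

/-- The sequence of states. -/
theorem PpH.seq {α : Ordinal.{0}} {Y : Set Ω} {R : Set (Set Ω)} {r : Ω → Ordinal.{0}}
    {G : I → Ω → Ω → Prop} {i : I} {A B : Set Ω} {rB : Ω → Ordinal.{0}}
    (H : PpH α Y R r G i A B rB) {s0 : PpSt Ω} (hs : PpGood R G i A B s0) {C : ℕ → Set Ω}
    (hC : ∀ n, C n ∈ R) :
    ∃ s : ℕ → PpSt Ω, s 0 = s0 ∧ (∀ n, PpGood R G i A B (s n)) ∧
      (∀ m n, m ≤ n → PpLe G i (s m) (s n)) ∧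
      ∀ n, C n ∩ A ⊆ (s (n + 1)).D ∧ C n ∩ B ⊆ (s (n + 1)).f '' (s (n + 1)).D ∧
        C n ⊆ (s (n + 1)).K := by
  have h1 : ∀ (p : {s // PpGood R G i A B s}) (n : ℕ), ∃ p' : {s // PpGood R G i A B s},
      PpLe G i p.1 p'.1 ∧ C n ∩ A ⊆ p'.1.D ∧ C n ∩ B ⊆ p'.1.f '' p'.1.D ∧ C n ⊆ p'.1.K := by
    intro p n
    obtain ⟨s', g, h⟩ := H.step p.2 (hC n)
    exact ⟨⟨s', g⟩, h⟩
  choose F hF using h1
  let q : ℕ → {s // PpGood R G i A B s} := fun n => Nat.rec ⟨s0, hs⟩ (fun n p => F p n) n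
  have hq : ∀ n, q (n + 1) = F (q n) n := fun n => rfl
  refine ⟨fun n => (q n).1, rfl, fun n => (q n).2, ?_, ?_⟩
  · intro m n hmn
    induction n, hmn using Nat.le_induction with
    | base => exact PpLe.refl G i _
    | succ n _ ih =>
      exact ih.trans (hF (q n) n).1
  · intro n
    show C n ∩ A ⊆ (q (n + 1)).1.D ∧ C n ∩ B ⊆ (q (n + 1)).1.f '' (q (n + 1)).1.D ∧
      C n ⊆ (q (n + 1)).1.K
    rw [hq]
    exact (hF (q n) n).2

theorem ping_pong {α : Ordinal.{0}} (hα : Ind α) {Y : Set Ω} {R : Set (Set Ω)}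
    {r : Ω → Ordinal.{0}} (hY : GR Y R r) (cY : Y.Countable) (hr : ∀ x ∈ Y, r x < α)
    {G : I → Ω → Ω → Prop} (hPF : PF G) (hC : ClSys Y R G) (hF : Free G) (hP : Proper R G)
    {i : I} {A B : Set Ω} (hAY : A ⊆ Y) (hA : ∀ K ∈ R, K ∩ A ∈ R) (hB : Cl Y R B)
    {rB : Ω → Ordinal.{0}} (hrB : GR B (tr R B) rB) (hTA : Tall α R A r) (hTB : Tall α R B rB)
    (hd : ∀ x ∈ A, ∀ y, ¬ G i x y) (hrn : ∀ x ∈ B, ∀ y, ¬ G i y x) {K : Set Ω} (hK : K ∈ R) :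
    ∃ h : Ω → Ω, Iso A (tr R A) B (tr R B) h ∧ PF (addE G i A h) ∧ Free (addE G i A h) ∧
      Proper R (addE G i A h) ∧
      ∀ x ∈ K, ∀ y ∈ K, ∀ g, Acts (addE G i A h) g x y → Acts G g x y := by
  classical
  have H : PpH α Y R r G i A B rB :=
    ⟨hα, hY, cY, hr, hC, hAY, hA, hB, hrB, hTA, hTB, hd, hrn⟩
  -- enumeration of the space
  have hne : Y.Nonempty := by
    obtain ⟨b, hb, _⟩ := hTA 0 (lt_trans zero_lt_one hα.one) ∅ hY.emp
    exact ⟨b, hAY hb⟩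
  obtain ⟨y, hy⟩ := cY.exists_eq_range hne
  have hcov : ∀ n, ∃ C ∈ R, y n ∈ C := fun n => hY.cov (y n) (hy ▸ mem_range_self n)
  choose C hCR hyC using hcov
  -- the initial state
  have hgr0 : (⟨∅, id, K⟩ : PpSt Ω).gr G i = G := by
    funext l x y
    refine propext ⟨?_, fun h => Or.inl h⟩
    rintro (h | ⟨_, h, _⟩)
    · exact h
    · exact h.elim
  have g0 : PpGood R G i A B ⟨∅, id, K⟩ := by
    refine ⟨empty_subset _, hY.emp, injOn_empty _, ?_, hK, empty_subset _, ?_, ?_, ?_, ?_⟩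
    · intro O hO
      have hO' : O = ∅ := subset_empty_iff.1 hO
      subst hO'
      constructor
      · intro _
        rw [image_empty]
        exact hrB.emp
      · intro _
        exact hY.emp
    · show id '' (∅ : Set Ω) ⊆ K
      rw [image_empty]
      exact empty_subset _
    · rw [hgr0]; exact hPF
    · rw [hgr0]; exact hF
    · rw [hgr0]; exact hP
  obtain ⟨s, hs0, hg, hle, hst⟩ := H.seq g0 hCR
  -- the limit map
  set h : Ω → Ω := fun x => if hx : ∃ t, x ∈ (s t).D then (s hx.choose).f x else x with hh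
  have hval : ∀ t, ∀ x ∈ (s t).D, h x = (s t).f x := by
    intro t x hx
    have hx' : ∃ t, x ∈ (s t).D := ⟨t, hx⟩
    have e1 : h x = (s hx'.choose).f x := dif_pos hx'
    rw [e1]
    rcases le_total hx'.choose t with hl | hl
    · exact ((hle _ _ hl).f x hx'.choose_spec).symm
    · exact (hle _ _ hl).f x hx
  have himg : ∀ t, ∀ O ⊆ (s t).D, h '' O = (s t).f '' O :=
    fun t O hO => image_congr fun x hx => hval t x (hO hx)
  have hAD : ∀ x ∈ A, ∃ t, x ∈ (s t).D := by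
    intro x hx
    have : x ∈ range y := hy ▸ hAY hx
    obtain ⟨n, rfl⟩ := this
    exact ⟨n + 1, (hst n).1 ⟨hyC n, hx⟩⟩
  have hBD : ∀ x ∈ B, ∃ t, x ∈ (s t).f '' (s t).D := by
    intro x hx
    have : x ∈ range y := hy ▸ hB.1 hx
    obtain ⟨n, rfl⟩ := this
    exact ⟨n + 1, (hst n).2.1 ⟨hyC n, hx⟩⟩
  have hYK : ∀ x ∈ Y, ∃ t, x ∈ (s t).K := by
    intro x hx
    have : x ∈ range y := hy ▸ hx
    obtain ⟨n, rfl⟩ := this
    exact ⟨n + 1, (hst n).2.2 (hyC n)⟩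
  have hDB : ∀ t, (s t).f '' (s t).D ∈ tr R B :=
    fun t => ((hg t).iso _ Subset.rfl).1 (hg t).DR
  have hinj : InjOn h A := by
    intro x hx x' hx' he
    obtain ⟨t, ht⟩ := hAD x hx
    obtain ⟨t', ht'⟩ := hAD x' hx'
    have h1 := (hle t (max t t') (le_max_left _ _)).D ht
    have h2 := (hle t' (max t t') (le_max_right _ _)).D ht'
    rw [hval _ x h1, hval _ x' h2] at he
    exact (hg _).inj h1 h2 he
  have hbij : BijOn h A B := by
    refine ⟨?_, hinj, ?_⟩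
    · intro x hx
      obtain ⟨t, ht⟩ := hAD x hx
      rw [hval t x ht]
      exact hrB.sub _ (hDB t) ⟨x, ht, rfl⟩
    · intro z hz
      obtain ⟨t, x, hx, rfl⟩ := hBD z hz
      exact ⟨x, (hg t).DA hx, hval t x hx⟩
  have hiso : ∀ O, O ⊆ A → (O ∈ tr R A ↔ h '' O ∈ tr R B) := by
    intro O hOA
    constructor
    · intro hO
      have hOR := ((mem_tr_clopen hY hA).1 hO).1
      obtain ⟨t, ht⟩ := hY.compact_seq hOR (U := fun t => (s t).D) (fun t => (hg t).DR)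
        (fun m n hmn => (hle m n hmn).D) (fun x hx => by
          obtain ⟨t, ht⟩ := hAD x (hOA hx)
          exact mem_iUnion.2 ⟨t, ht⟩)
      rw [himg t O ht]
      exact ((hg t).iso O ht).1 hOR
    · intro hO
      obtain ⟨t, ht⟩ := hrB.compact_seq hO (U := fun t => (s t).f '' (s t).D) hDB
        (fun m n hmn => (hle m n hmn).img) (fun x hx => by
          obtain ⟨t, ht⟩ := hBD x (hrB.sub _ hO hx)
          exact mem_iUnion.2 ⟨t, ht⟩)
      have hsub : O ⊆ (s t).D := by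
        intro x hx
        obtain ⟨x', hx', he⟩ := ht ⟨x, hx, rfl⟩
        rw [← hval t x' hx'] at he
        rw [← hinj ((hg t).DA hx') (hOA hx) he]
        exact hx'
      rw [himg t O hsub] at hO
      exact (mem_tr_clopen hY hA).2 ⟨((hg t).iso O hsub).2 hO, hOA⟩
  -- paths of the limit graph
  have hmono : ∀ m n, m ≤ n → ∀ l x z, (s m).gr G i l x z → (s n).gr G i l x z :=
    fun m n hmn => (hle m n hmn).mono
  have hedge : ∀ l x z, addE G i A h l x z → ∃ t, (s t).gr G i l x z := by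
    rintro l x z (h1 | ⟨h1, h2, h3⟩)
    · exact ⟨0, Or.inl h1⟩
    · obtain ⟨t, ht⟩ := hAD x h2
      exact ⟨t, Or.inr ⟨h1, ht, by rw [h3, hval t x ht]⟩⟩
  have hpath : ∀ g x z, Acts (addE G i A h) g x z → ∃ t, Acts ((s t).gr G i) g x z := by
    intro g x z hp
    induction hp with
    | one x => exact ⟨0, Acts.one x⟩
    | fwd _ he ih =>
      obtain ⟨t, ht⟩ := ih
      obtain ⟨t', ht'⟩ := hedge _ _ _ he
      exact ⟨max t t', Acts.fwd (Acts.mono (hmono t _ (le_max_left _ _)) ht)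
        (hmono t' _ (le_max_right _ _) _ _ _ ht')⟩
    | bwd _ he ih =>
      obtain ⟨t, ht⟩ := ih
      obtain ⟨t', ht'⟩ := hedge _ _ _ he
      exact ⟨max t t', Acts.bwd (Acts.mono (hmono t _ (le_max_left _ _)) ht)
        (hmono t' _ (le_max_right _ _) _ _ _ ht')⟩
  have hctl : ∀ t, ∀ x ∈ (s t).K, ∀ z ∈ (s t).K, ∀ g, Acts (addE G i A h) g x z →
      Acts ((s t).gr G i) g x z := by
    intro t x hx z hz g hp
    obtain ⟨t', ht'⟩ := hpath g x z hp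
    exact (hle t (max t t') (le_max_left _ _)).ctl x hx z hz g
      (Acts.mono (hmono t' _ (le_max_right _ _)) ht')
  refine ⟨h, ⟨hbij, hiso⟩, ⟨?_, ?_⟩, ?_, ?_, ?_⟩
  · intro l x z z' h1 h2
    obtain ⟨t, ht⟩ := hedge _ _ _ h1
    obtain ⟨t', ht'⟩ := hedge _ _ _ h2
    exact (hg (max t t')).pf.1 l x z z' (hmono t _ (le_max_left _ _) _ _ _ ht)
      (hmono t' _ (le_max_right _ _) _ _ _ ht')
  · intro l x z z' h1 h2
    obtain ⟨t, ht⟩ := hedge _ _ _ h1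
    obtain ⟨t', ht'⟩ := hedge _ _ _ h2
    exact (hg (max t t')).pf.2 l x z z' (hmono t _ (le_max_left _ _) _ _ _ ht)
      (hmono t' _ (le_max_right _ _) _ _ _ ht')
  · intro g x hp
    obtain ⟨t, ht⟩ := hpath g x x hp
    exact (hg t).fr g x ht
  · intro K' hK'
    obtain ⟨t, ht⟩ := hY.compact_seq hK' (U := fun t => (s t).K) (fun t => (hg t).KR)
      (fun m n hmn => (hle m n hmn).K) (fun x hx => by
        obtain ⟨t, ht⟩ := hYK x (hY.sub _ hK' hx)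
        exact mem_iUnion.2 ⟨t, ht⟩)
    refine ((hg t).pr _ (hg t).KR).subset ?_
    rintro g ⟨x, hx, z, hz, hp⟩
    exact ⟨x, ht hx, z, ht hz, hctl t x (ht hx) z (ht hz) g hp⟩
  · intro x hx z hz g hp
    have h1 := hctl 0 x (by rw [hs0]; exact hx) z (by rw [hs0]; exact hz) g hp
    rw [hs0, hgr0] at h1
    exact h1

end Pool.Agent.Helper33.QB
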